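import Mathlib

namespace Pool.Agent.Results.MP_dad682_an.NormingEnvelope

open Filter Topology
open scoped ENNReal ComplexConjugate

noncomputable section

/-- The direct sum `H^n` of `n` copies of a Hilbert space `H`, with its Hilbert space norm. -/
abbrev Pow (n : ℕ) (H : Type*) := PiLp 2 (fun _ : Fin n => H)

section defs
variable {H : Type*} [NormedAddCommGroup H] [InnerProductSpace ℂ H]

/-- `B(H)` -/
abbrev Op (H : Type*) [NormedAddCommGroup H] [InnerProductSpace ℂ H] := H →L[ℂ] H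

/-- The operator `H^k → H^k` given by a `k × k` matrix of operators. -/
def matOp {k : ℕ} (X : Fin k → Fin k → Op H) : Pow k H →L[ℂ] Pow k H :=
  ((PiLp.continuousLinearEquiv 2 ℂ (fun _ : Fin k => H)).symm : (Fin k → H) →L[ℂ] Pow k H) ∘L
    ContinuousLinearMap.pi (fun i => ∑ j, X i j ∘L PiLp.proj 2 (fun _ : Fin k => H) j)

/-- The operator `H^k → H` given by a `1 × k` row of operators. -/
def rowOp {k : ℕ} (R : Fin k → Op H) : Pow k H →L[ℂ] H :=
  ∑ j, R j ∘L PiLp.proj 2 (fun _ : Fin k => H) j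

/-- The operator `H → H^k` given by a `k × 1` column of operators. -/
def colOp {k : ℕ} (C : Fin k → Op H) : H →L[ℂ] Pow k H :=
  ((PiLp.continuousLinearEquiv 2 ℂ (fun _ : Fin k => H)).symm : (Fin k → H) →L[ℂ] Pow k H) ∘L
    ContinuousLinearMap.pi (fun i => C i)

/-- The norm of a `k × k` matrix of operators as an operator on `H^k`. -/
def matNorm {k : ℕ} (X : Fin k → Fin k → Op H) : ℝ := ‖matOp X‖

/-- `S` norms `B`: for every `k ≥ 1` and every `k × k` matrix `X` over `B`, the number `‖X‖` is the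
least upper bound of the `‖R X C‖` with `R`, `C` in the closed unit balls of the `1 × k` rows and
the `k × 1` columns over `S`. -/
def Norms (S B : Set (Op H)) : Prop :=
  ∀ k : ℕ, 1 ≤ k → ∀ X : Fin k → Fin k → Op H, (∀ i j, X i j ∈ B) →
    IsLUB {r : ℝ | ∃ R C : Fin k → Op H, (∀ i, R i ∈ S) ∧ (∀ i, C i ∈ S) ∧
      ‖rowOp R‖ ≤ 1 ∧ ‖colOp C‖ ≤ 1 ∧ r = ‖rowOp R ∘L matOp X ∘L colOp C‖} (matNorm X)

/-- `E` is a linear space of operators. -/
def IsOpSpace (E : Set (Op H)) : Prop :=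
  0 ∈ E ∧ (∀ S ∈ E, ∀ T ∈ E, S + T ∈ E) ∧ ∀ (c : ℂ), ∀ T ∈ E, c • T ∈ E

/-- `A` is a unital C*-algebra of operators: a norm closed linear space of operators that contains
the identity and is closed under products and adjoints. -/
def IsCStar [CompleteSpace H] (A : Set (Op H)) : Prop :=
  IsOpSpace A ∧ 1 ∈ A ∧ (∀ S ∈ A, ∀ T ∈ A, S * T ∈ A) ∧ (∀ T ∈ A, star T ∈ A) ∧ IsClosed A

end defs

section maps
variable {L K : Type*} [NormedAddCommGroup L] [InnerProductSpace ℂ L]
  [NormedAddCommGroup K] [InnerProductSpace ℂ K]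

/-- `u` is linear on the linear space `E` of operators. -/
def LinOn (E : Set (Op L)) (u : Op L → Op K) : Prop :=
  (∀ S ∈ E, ∀ T ∈ E, u (S + T) = u S + u T) ∧ ∀ (c : ℂ), ∀ T ∈ E, u (c • T) = c • u T

/-- `u` is completely contractive on the linear space `E` of operators. -/
def CompContr (E : Set (Op L)) (u : Op L → Op K) : Prop :=
  ∀ (k : ℕ) (X : Fin k → Fin k → Op L), (∀ i j, X i j ∈ E) →
    matNorm (fun i j => u (X i j)) ≤ matNorm X

/-- `u` is completely isometric on the linear space `E` of operators. -/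
def CompIsom (E : Set (Op L)) (u : Op L → Op K) : Prop :=
  ∀ (k : ℕ) (X : Fin k → Fin k → Op L), (∀ i j, X i j ∈ E) →
    matNorm (fun i j => u (X i j)) = matNorm X

/-- `u` maps `E` into `I`, is linear and completely contractive on `E`. -/
def MapsCC (E : Set (Op L)) (I : Set (Op K)) (u : Op L → Op K) : Prop :=
  (∀ x ∈ E, u x ∈ I) ∧ LinOn E u ∧ CompContr E u

/-- `ι` is a unital star homomorphism on the algebra `A`. -/
def IsStarHom [CompleteSpace L] [CompleteSpace K] (A : Set (Op L)) (ι : Op L → Op K) : Prop :=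
  LinOn A ι ∧ ι 1 = 1 ∧ (∀ S ∈ A, ∀ T ∈ A, ι (S * T) = ι S * ι T) ∧ ∀ T ∈ A, ι (star T) = star (ι T)

/-- `I ⊆ B(K)` is injective: completely contractive maps into `I` from a linear space `E` of
operators extend to completely contractive maps into `I` from every larger linear space `F` of
operators on the same Hilbert space. -/
def IsInjective.{u, v} {K : Type v} [NormedAddCommGroup K] [InnerProductSpace ℂ K]
    (I : Set (Op K)) : Prop :=
  ∀ (L : Type u) [NormedAddCommGroup L] [InnerProductSpace ℂ L] [CompleteSpace L]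
    (E F : Set (Op L)), IsOpSpace E → IsOpSpace F → E ⊆ F → ∀ u : Op L → Op K, MapsCC E I u →
    ∃ v : Op L → Op K, MapsCC F I v ∧ ∀ x ∈ E, v x = u x

/-- Rigidity of `ι : A → I`: the only complete contraction `u : I → I` with `u (ι a) = ι a` for
all `a` in `A` is the identity. -/
def IsRigid (A : Set (Op L)) (I : Set (Op K)) (ι : Op L → Op K) : Prop :=
  ∀ u : Op K → Op K, MapsCC I I u → (∀ a ∈ A, u (ι a) = ι a) → ∀ x ∈ I, u x = x

end maps

/-- `ι : A → I` makes the C*-algebra `I` an injective envelope of the C*-algebra `A`: `ι` is an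
injective star homomorphism from `A` to `I`, `I` is injective, and `ι` is rigid. -/
def IsInjEnvelope.{u, v} {H K : Type v} [NormedAddCommGroup H] [InnerProductSpace ℂ H]
    [CompleteSpace H] [NormedAddCommGroup K] [InnerProductSpace ℂ K] [CompleteSpace K]
    (A : Set (Op H)) (I : Set (Op K)) (ι : Op H → Op K) : Prop :=
  IsStarHom A ι ∧ Set.InjOn ι A ∧ Set.MapsTo ι A I ∧ IsCStar I ∧ IsInjective.{u, v} I ∧
    IsRigid A I ι

section auxmaps
variable {L K : Type*} [NormedAddCommGroup L] [InnerProductSpace ℂ L]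
  [NormedAddCommGroup K] [InnerProductSpace ℂ K]

/-- `u`, defined on a linear space `E` of operators, is completely contractive. -/
def CompContr1 (E : Submodule ℂ (L →L[ℂ] L)) (u : E →ₗ[ℂ] (K →L[ℂ] K)) : Prop :=
  ∀ (k : ℕ) (X : Fin k → Fin k → E),
    ‖matOp (fun i j => u (X i j))‖ ≤ ‖matOp (fun i j => (X i j : L →L[ℂ] L))‖

/-- `u`, defined on a linear space `E` of operators, is a complete isometry. -/
def CompIsom1 (E : Submodule ℂ (L →L[ℂ] L)) (u : E →ₗ[ℂ] (K →L[ℂ] K)) : Prop :=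
  ∀ (k : ℕ) (X : Fin k → Fin k → E),
    ‖matOp (fun i j => u (X i j))‖ = ‖matOp (fun i j => (X i j : L →L[ℂ] L))‖

/-- The underlying linear space of a star subalgebra of `B(K)`. -/
abbrev lin [CompleteSpace K] (I : StarSubalgebra ℂ (K →L[ℂ] K)) : Submodule ℂ (K →L[ℂ] K) :=
  Subalgebra.toSubmodule I.toSubalgebra

/-- `I ⊆ B(K)` is injective: completely contractive maps into `I` from a linear space `E` of
operators extend to completely contractive maps into `I` from every larger linear space `F` of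
operators on the same Hilbert space. -/
def IsInjective1.{u, v} {K : Type v} [NormedAddCommGroup K] [InnerProductSpace ℂ K]
    [CompleteSpace K] (I : StarSubalgebra ℂ (K →L[ℂ] K)) : Prop :=
  ∀ (L : Type u) [NormedAddCommGroup L] [InnerProductSpace ℂ L] [CompleteSpace L]
    (E F : Submodule ℂ (L →L[ℂ] L)) (hEF : E ≤ F) (u : E →ₗ[ℂ] (K →L[ℂ] K)),
    (∀ x, u x ∈ I) → CompContr1 E u →
    ∃ v : F →ₗ[ℂ] (K →L[ℂ] K), (∀ x, v x ∈ I) ∧ CompContr1 F v ∧
      ∀ x : E, v (Submodule.inclusion hEF x) = u x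

/-- Rigidity of `ι : A → I`: the only complete contraction `u : I → I` with `u (ι a) = ι a` for
all `a` in `A` is the identity. -/
def IsRigid1.{v} {H K : Type v} [NormedAddCommGroup H] [InnerProductSpace ℂ H]
    [CompleteSpace H] [NormedAddCommGroup K] [InnerProductSpace ℂ K] [CompleteSpace K]
    (A : StarSubalgebra ℂ (H →L[ℂ] H)) (I : StarSubalgebra ℂ (K →L[ℂ] K))
    (ι : A →⋆ₐ[ℂ] I) : Prop :=
  ∀ u : lin I →ₗ[ℂ] (K →L[ℂ] K), (∀ x, u x ∈ I) → CompContr1 (lin I) u →
    (∀ a : A, u (ι a) = (ι a : K →L[ℂ] K)) → ∀ x, u x = x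

/-- `ι : A → I` makes `I` an injective envelope of the C*-algebra `A`: `ι` is an injective
star homomorphism, `I` is injective, and `ι` is rigid. -/
def IsInjEnvelope1.{u, v} {H K : Type v} [NormedAddCommGroup H] [InnerProductSpace ℂ H]
    [CompleteSpace H] [NormedAddCommGroup K] [InnerProductSpace ℂ K] [CompleteSpace K]
    (A : StarSubalgebra ℂ (H →L[ℂ] H)) (I : StarSubalgebra ℂ (K →L[ℂ] K))
    (ι : A →⋆ₐ[ℂ] I) : Prop :=
  Function.Injective ι ∧ IsInjective1.{u, v} I ∧ IsRigid1 A I ι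

end auxmaps

section basic
variable {H : Type*} [NormedAddCommGroup H] [InnerProductSpace ℂ H]

lemma matOp_apply {k : ℕ} (X : Fin k → Fin k → (H →L[ℂ] H)) (v : Pow k H) (i : Fin k) :
    matOp X v i = ∑ j, X i j (v j) := by
  simp [matOp]

lemma rowOp_apply {k : ℕ} (R : Fin k → (H →L[ℂ] H)) (v : Pow k H) :
    rowOp R v = ∑ j, R j (v j) := by
  simp [rowOp]

lemma colOp_apply {k : ℕ} (C : Fin k → (H →L[ℂ] H)) (h : H) (i : Fin k) :
    colOp C h i = C i h := by
  simp [colOp]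

lemma rxc_apply {k : ℕ} (R C : Fin k → (H →L[ℂ] H)) (X : Fin k → Fin k → (H →L[ℂ] H)) (h : H) :
    (rowOp R ∘L matOp X ∘L colOp C) h = ∑ i, R i (∑ j, X i j (C j h)) := by
  simp [rowOp_apply, matOp_apply, colOp_apply]

end basic

/-- Hilbert sum of copies of `E` -/
abbrev HS (J : Type) (E : Type) [NormedAddCommGroup E] [InnerProductSpace ℂ E] :=
  lp (fun _ : J => E) 2

section bd
variable {J : Type} {E : Type} [NormedAddCommGroup E] [InnerProductSpace ℂ E]

lemma hs_sum (h : HS J E) : HasSum (fun s => ‖h s‖ ^ 2) (‖h‖ ^ 2) := by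
  have := lp.hasSum_norm (p := 2) (by norm_num) h
  simpa using this

/-- pointwise comparison -/
lemma comp_le {m n : Type} [Fintype m] [Fintype n] (x : m → HS J E) (y : n → HS J E) (c : ℝ)
    (h : ∀ s, ∑ i, ‖x i s‖ ^ 2 ≤ c * ∑ j, ‖y j s‖ ^ 2) :
    ∑ i, ‖x i‖ ^ 2 ≤ c * ∑ j, ‖y j‖ ^ 2 := by
  have h1 : HasSum (fun s => ∑ i, ‖x i s‖ ^ 2) (∑ i, ‖x i‖ ^ 2) := hasSum_sum fun i _ => hs_sum (x i)
  have h2 : HasSum (fun s => c * ∑ j, ‖y j s‖ ^ 2) (c * ∑ j, ‖y j‖ ^ 2) :=
    (hasSum_sum fun j _ => hs_sum (y j)).mul_left c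
  exact hasSum_le h h1 h2

lemma bd_mem (F : J → (E →L[ℂ] E)) (c : ℝ) (hF : ∀ s, ‖F s‖ ≤ c) (v : HS J E) :
    Memℓp (fun s => F s (v s)) 2 := by
  have h1 : Summable (fun s => ‖v s‖ ^ 2) := (hs_sum v).summable
  refine memℓp_gen ?_
  have h2 : Summable (fun s => c ^ 2 * ‖v s‖ ^ 2) := h1.mul_left _
  have h3 : Summable (fun s => ‖F s (v s)‖ ^ 2) := by
    refine Summable.of_nonneg_of_le (fun s => by positivity) (fun s => ?_) h2
    rw [← mul_pow]
    gcongr
    exact (F s).le_of_opNorm_le (hF s) _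
  simpa using h3

/-- The block diagonal operator. -/
def bd (F : J → (E →L[ℂ] E)) (c : ℝ) (hF : ∀ s, ‖F s‖ ≤ c) : HS J E →L[ℂ] HS J E :=
  LinearMap.mkContinuous
    { toFun := fun v => ⟨fun s => F s (v s), bd_mem F c hF v⟩
      map_add' := fun v w => by
        ext s
        show F s ((v + w : HS J E) s) = F s (v s) + F s (w s)
        simp
      map_smul' := fun a v => by
        ext s
        show F s ((a • v : HS J E) s) = a • F s (v s)
        simp }
    (|c|) (by
      intro v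
      have := comp_le (m := Unit) (n := Unit) (fun _ => (⟨fun s => F s (v s), bd_mem F c hF v⟩ :
        HS J E)) (fun _ => v) (c ^ 2) (by
          intro s
          simp only [Finset.univ_unique, Finset.sum_const, Finset.card_singleton, one_smul]
          rw [← mul_pow]
          gcongr
          exact (F s).le_of_opNorm_le (hF s) _)
      simp only [Finset.univ_unique, Finset.sum_const, Finset.card_singleton, one_smul] at this
      rw [← mul_pow] at this
      refine abs_le_of_sq_le_sq' ?_ (by positivity) |>.2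
      simpa [mul_pow] using this)

@[simp] lemma bd_apply (F : J → (E →L[ℂ] E)) (c : ℝ) (hF : ∀ s, ‖F s‖ ≤ c) (v : HS J E) (s : J) :
    bd F c hF v s = F s (v s) := rfl


lemma hs_sum_apply {m : Type} [Fintype m] (x : m → HS J E) (s : J) :
    (∑ i, x i : HS J E) s = ∑ i, x i s := by
  rw [lp.coeFn_sum, Finset.sum_apply]

lemma opNorm_le_sq {V W : Type*} [NormedAddCommGroup V] [NormedSpace ℂ V] [NormedAddCommGroup W]
    [NormedSpace ℂ W] (T : V →L[ℂ] W) {c : ℝ} (hc : 0 ≤ c)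
    (h : ∀ v, ‖T v‖ ^ 2 ≤ c ^ 2 * ‖v‖ ^ 2) : ‖T‖ ≤ c := by
  refine T.opNorm_le_bound hc fun v => ?_
  have := h v
  rw [← mul_pow] at this
  exact (abs_le_of_sq_le_sq' this (by positivity)).2

lemma sq_le_opNorm {V W : Type*} [NormedAddCommGroup V] [NormedSpace ℂ V] [NormedAddCommGroup W]
    [NormedSpace ℂ W] (T : V →L[ℂ] W) {c : ℝ} (h : ‖T‖ ≤ c) (v : V) :
    ‖T v‖ ^ 2 ≤ c ^ 2 * ‖v‖ ^ 2 := by
  rw [← mul_pow]
  gcongr
  exact T.le_of_opNorm_le h v

lemma matOp_le {k : ℕ} (T : Fin k → Fin k → (HS J E →L[ℂ] HS J E))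
    (F : Fin k → Fin k → J → (E →L[ℂ] E)) (hT : ∀ i j h s, T i j h s = F i j s (h s))
    {c : ℝ} (hc : 0 ≤ c) (h : ∀ s, ‖matOp (fun i j => F i j s)‖ ≤ c) : ‖matOp T‖ ≤ c := by
  refine opNorm_le_sq _ hc fun v => ?_
  rw [PiLp.norm_sq_eq_of_L2, PiLp.norm_sq_eq_of_L2]
  refine comp_le _ _ _ fun s => ?_
  have := sq_le_opNorm _ (h s) (WithLp.toLp 2 (fun j => v j s))
  rw [PiLp.norm_sq_eq_of_L2, PiLp.norm_sq_eq_of_L2] at this
  simp only [matOp_apply, hT, hs_sum_apply] at this ⊢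
  exact this

lemma row_le {k : ℕ} (T : Fin k → (HS J E →L[ℂ] HS J E))
    (F : Fin k → J → (E →L[ℂ] E)) (hT : ∀ i h s, T i h s = F i s (h s))
    (h : ∀ s (x : Fin k → E), ‖∑ i, F i s (x i)‖ ^ 2 ≤ ∑ i, ‖x i‖ ^ 2) : ‖rowOp T‖ ≤ 1 := by
  refine opNorm_le_sq _ (by norm_num) fun v => ?_
  rw [PiLp.norm_sq_eq_of_L2]
  have := comp_le (m := Unit) (fun _ => rowOp T v) (fun i => v i) (1 ^ 2) fun s => ?_
  · simpa using this
  · have := h s (fun i => v i s)
    simp only [rowOp_apply, hT, hs_sum_apply, Finset.univ_unique, Finset.sum_const,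
      Finset.card_singleton, one_smul, one_pow, one_mul] at this ⊢
    exact this

lemma col_le {k : ℕ} (T : Fin k → (HS J E →L[ℂ] HS J E))
    (F : Fin k → J → (E →L[ℂ] E)) (hT : ∀ i h s, T i h s = F i s (h s))
    (h : ∀ s (x : E), ∑ i, ‖F i s x‖ ^ 2 ≤ ‖x‖ ^ 2) : ‖colOp T‖ ≤ 1 := by
  refine opNorm_le_sq _ (by norm_num) fun v => ?_
  rw [PiLp.norm_sq_eq_of_L2]
  have := comp_le (n := Unit) (fun i => colOp T v i) (fun _ => v) (1 ^ 2) fun s => ?_
  · simpa using this
  · simpa [colOp_apply, hT] using h s (v s)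

variable [DecidableEq J]

/-- the vector `x` placed at the coordinate `s` -/
def sg (s : J) (x : E) : HS J E := lp.single 2 s x

lemma sg_norm (s : J) (x : E) : ‖(sg s x : HS J E)‖ = ‖x‖ :=
  lp.norm_single (E := fun _ : J => E) (by norm_num) s x

lemma sg_self (s : J) (x : E) : (sg s x : HS J E) s = x := by
  simp [sg]

lemma sg_ne (s t : J) (x : E) (h : t ≠ s) : (sg s x : HS J E) t = 0 := by
  unfold sg
  exact lp.single_apply_ne (E := fun _ : J => E) 2 s x h

lemma sg_sum {m : Type} [Fintype m] (s : J) (x : m → E) :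
    (∑ i, sg s (x i) : HS J E) = sg s (∑ i, x i) := by
  ext t
  rw [hs_sum_apply]
  by_cases h : t = s
  · subst h
    simp only [sg_self]
  · simp only [sg_ne s t _ h, Finset.sum_const_zero]

lemma op_sg (T : HS J E →L[ℂ] HS J E) (F : J → (E →L[ℂ] E)) (hT : ∀ h s, T h s = F s (h s))
    (s : J) (x : E) : T (sg s x) = sg s (F s x) := by
  ext t
  rw [hT]
  by_cases h : t = s
  · subst h
    rw [sg_self, sg_self]
  · rw [sg_ne s t _ h, sg_ne s t _ h, map_zero]

lemma matOp_ge {k : ℕ} (T : Fin k → Fin k → (HS J E →L[ℂ] HS J E))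
    (F : Fin k → Fin k → J → (E →L[ℂ] E)) (hT : ∀ i j h s, T i j h s = F i j s (h s)) (s : J) :
    ‖matOp (fun i j => F i j s)‖ ≤ ‖matOp T‖ := by
  refine opNorm_le_sq _ (norm_nonneg (matOp T)) fun v => ?_
  have := sq_le_opNorm (matOp T) le_rfl (WithLp.toLp 2 (fun j => sg s (v j)))
  rw [PiLp.norm_sq_eq_of_L2, PiLp.norm_sq_eq_of_L2] at this ⊢
  have e : ∀ i, (matOp T (WithLp.toLp 2 (fun j => sg s (v j)))) i =
      sg s (matOp (fun i j => F i j s) v i) := by
    intro i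
    rw [matOp_apply, matOp_apply]
    simp only [op_sg _ _ (hT _ _), sg_sum]
  simp only [e, sg_norm] at this
  exact this

end bd

section crit
variable {V W : Type*} [NormedAddCommGroup V] [InnerProductSpace ℂ V] [NormedAddCommGroup W]
    [InnerProductSpace ℂ W]

lemma bil_crit (T : V →L[ℂ] W) {c : ℝ} (hc : 0 ≤ c)
    (h : ∀ v w, ‖v‖ ≤ 1 → ‖w‖ ≤ 1 → ‖inner ℂ w (T v)‖ ≤ c) : ‖T‖ ≤ c := by
  have h1 : ∀ v, ‖v‖ ≤ 1 → ‖T v‖ ≤ c := by
    intro v hv
    by_cases h0 : T v = 0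
    · simpa [h0] using hc
    · have hp : 0 < ‖T v‖ := norm_pos_iff.2 h0
      have := h v (((‖T v‖⁻¹ : ℝ) : ℂ) • T v) hv (by
        rw [norm_smul]; simp [h0])
      rw [inner_smul_left, inner_self_eq_norm_sq_to_K] at this
      simp only [Complex.conj_ofReal, norm_mul, Complex.norm_real, norm_inv, norm_norm,
        norm_pow, Complex.coe_algebraMap] at this
      rw [pow_two, ← mul_assoc, inv_mul_cancel₀ hp.ne', one_mul] at this
      exact this
  refine T.opNorm_le_bound hc fun v => ?_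
  by_cases h0 : v = 0
  · simp [h0]
  · have hp : 0 < ‖v‖ := norm_pos_iff.2 h0
    have := h1 (((‖v‖⁻¹ : ℝ) : ℂ) • v) (by rw [norm_smul]; simp [h0])
    rw [map_smul, norm_smul, Complex.norm_real, norm_inv, norm_norm,
      inv_mul_le_iff₀ hp] at this
    linarith [mul_comm c ‖v‖]

end crit


section hom
variable {J : Type} {E : Type} [NormedAddCommGroup E] [InnerProductSpace ℂ E] [CompleteSpace E]

lemma bd_star (T T' : HS J E →L[ℂ] HS J E) (F F' : J → (E →L[ℂ] E))
    (hT : ∀ h s, T h s = F s (h s)) (hT' : ∀ h s, T' h s = F' s (h s))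
    (hF : ∀ s, F' s = star (F s)) : T' = star T := by
  rw [ContinuousLinearMap.star_eq_adjoint, ContinuousLinearMap.eq_adjoint_iff]
  intro x y
  rw [lp.inner_eq_tsum, lp.inner_eq_tsum]
  congr 1
  ext s
  rw [hT, hT', hF, ContinuousLinearMap.star_eq_adjoint, ContinuousLinearMap.adjoint_inner_left]

/-- block diagonal representation built from representations of the blocks -/
def bdHom {𝒜 : Type} [CStarAlgebra 𝒜] (φ : J → (𝒜 →⋆ₐ[ℂ] (E →L[ℂ] E))) :
    𝒜 →⋆ₐ[ℂ] (HS J E →L[ℂ] HS J E) where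
  toFun a := bd (fun s => φ s a) ‖a‖ (fun s => NonUnitalStarAlgHom.norm_apply_le (φ s) a)
  map_one' := by
    ext h s
    simp
  map_mul' a b := by
    ext h s
    simp
  map_zero' := by
    ext h s
    simp
  map_add' a b := by
    ext h s
    simp
  commutes' c := by
    ext h s
    simp only [bd_apply, AlgHomClass.commutes]
    rw [Algebra.algebraMap_eq_smul_one, Algebra.algebraMap_eq_smul_one]
    simp
  map_star' a := by
    refine bd_star _ _ (fun s => φ s a) (fun s => φ s (star a)) ?_ ?_ ?_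
    · intro h s; rfl
    · intro h s; rfl
    · intro s; exact map_star (φ s) a

lemma bdHom_apply {𝒜 : Type} [CStarAlgebra 𝒜] (φ : J → (𝒜 →⋆ₐ[ℂ] (E →L[ℂ] E))) (a : 𝒜)
    (h : HS J E) (s : J) : bdHom φ a h s = φ s a (h s) := rfl

end hom

/-- bounded sequences -/
abbrev BF := BoundedContinuousFunction ℕ ℂ

/-- convergent sequences -/
abbrev CF := C(OnePoint ℕ, ℂ)

/-- `ℂ²` -/
abbrev E2 := EuclideanSpace ℂ (Fin 2)

/-- evaluation -/
def evB (n : ℕ) : BF →⋆ₐ[ℂ] ℂ where
  toFun f := f n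
  map_one' := rfl
  map_mul' _ _ := rfl
  map_zero' := rfl
  map_add' _ _ := rfl
  commutes' _ := rfl
  map_star' _ := rfl

/-- evaluation -/
def evC (n : OnePoint ℕ) : CF →⋆ₐ[ℂ] ℂ where
  toFun f := f n
  map_one' := rfl
  map_mul' _ _ := rfl
  map_zero' := rfl
  map_add' _ _ := rfl
  commutes' _ := rfl
  map_star' _ := rfl

@[simp] lemma evB_apply (n : ℕ) (f : BF) : evB n f = f n := rfl

@[simp] lemma evC_apply (n : OnePoint ℕ) (f : CF) : evC n f = f n := rfl

/-- a convergent sequence as a bounded sequence -/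
def rc : CF →⋆ₐ[ℂ] BF where
  toFun g := BoundedContinuousFunction.ofNormedAddCommGroupDiscrete (fun n : ℕ => g (n : OnePoint ℕ))
    ‖g‖ (fun n => ContinuousMap.norm_coe_le_norm g _)
  map_one' := rfl
  map_mul' _ _ := rfl
  map_zero' := rfl
  map_add' _ _ := rfl
  commutes' _ := rfl
  map_star' _ := rfl

lemma rc_apply (g : CF) (n : ℕ) : rc g n = g (n : OnePoint ℕ) := rfl

/-- the limit along an ultrafilter -/
def ul (p : Ultrafilter ℕ) (f : BF) : ℂ := limUnder (p : Filter ℕ) f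

lemma ul_tendsto (p : Ultrafilter ℕ) (f : BF) : Tendsto f (p : Filter ℕ) (𝓝 (ul p f)) := by
  have hc : IsCompact (Metric.closedBall (0 : ℂ) ‖f‖) := isCompact_closedBall _ _
  obtain ⟨x, -, hx⟩ := hc.ultrafilter_le_nhds (p.map f) (Filter.le_principal_iff.2
    (Ultrafilter.mem_map.2 (Filter.univ_mem' fun n => by
      simpa using f.norm_coe_le_norm n)))
  exact tendsto_nhds_limUnder ⟨x, hx⟩

lemma ul_eq (p : Ultrafilter ℕ) (f : BF) (x : ℂ) (h : Tendsto f (p : Filter ℕ) (𝓝 x)) :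
    ul p f = x := tendsto_nhds_unique (ul_tendsto p f) h

/-- the limit along an ultrafilter as a character -/
def ulH (p : Ultrafilter ℕ) : BF →⋆ₐ[ℂ] ℂ where
  toFun f := ul p f
  map_one' := ul_eq _ _ _ tendsto_const_nhds
  map_mul' f g := ul_eq _ _ _ ((ul_tendsto p f).mul (ul_tendsto p g))
  map_zero' := ul_eq _ _ _ tendsto_const_nhds
  map_add' f g := ul_eq _ _ _ ((ul_tendsto p f).add (ul_tendsto p g))
  commutes' c := ul_eq _ _ _ tendsto_const_nhds
  map_star' f := ul_eq _ _ _ ((ul_tendsto p f).star)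

/-- diagonal operators on `ℂ²` -/
def dg : (Fin 2 → ℂ) →⋆ₐ[ℂ] (E2 →L[ℂ] E2) where
  toFun x := Matrix.toEuclideanCLM (n := Fin 2) (𝕜 := ℂ) (Matrix.diagonal x)
  map_one' := by simp
  map_mul' x y := by rw [← map_mul, Matrix.diagonal_mul_diagonal]; rfl
  map_zero' := by simp
  map_add' x y := by rw [← map_add, Matrix.diagonal_add]; rfl
  commutes' c := by
    rw [← AlgHomClass.commutes (Matrix.toEuclideanCLM (n := Fin 2) (𝕜 := ℂ))]
    rfl
  map_star' x := by
    rw [← map_star, Matrix.star_eq_conjTranspose, Matrix.diagonal_conjTranspose]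

lemma dg_apply (x : Fin 2 → ℂ) (v : E2) (a : Fin 2) : dg x v a = x a * v a := by
  show (Matrix.toEuclideanCLM (n := Fin 2) (𝕜 := ℂ) (Matrix.diagonal x) v) a = _
  rw [Matrix.ofLp_toEuclideanCLM, Matrix.mulVec_diagonal]

/-- scalar operators -/
def scE (E : Type) [NormedAddCommGroup E] [InnerProductSpace ℂ E] [CompleteSpace E] :
    ℂ →⋆ₐ[ℂ] (E →L[ℂ] E) := StarAlgHom.ofId ℂ _

lemma scE_apply (E : Type) [NormedAddCommGroup E] [InnerProductSpace ℂ E] [CompleteSpace E]
    (c : ℂ) : scE E c = c • (1 : E →L[ℂ] E) := Algebra.algebraMap_eq_smul_one c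

/-- `ℓ²` -/
abbrev K2 := HS ℕ ℂ

/-- `ℓ²(ℕ; ℂ²) ⊕ ℂ²` -/
abbrev H2 := HS (Option ℕ) E2

/-- a pair of characters -/
def piH (χ : Fin 2 → (BF →⋆ₐ[ℂ] ℂ)) : BF →⋆ₐ[ℂ] (Fin 2 → ℂ) where
  toFun f a := χ a f
  map_one' := by ext a; simp
  map_mul' _ _ := by ext a; simp
  map_zero' := by ext a; simp
  map_add' _ _ := by ext a; simp
  commutes' c := by ext a; simp [AlgHomClass.commutes]
  map_star' _ := by ext a; simp [map_star]

/-- bounded sequences as diagonal operators on `ℓ²` -/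
def betaH : BF →⋆ₐ[ℂ] (K2 →L[ℂ] K2) := bdHom (fun n => (scE ℂ).comp (evB n))

/-- the characters in a block -/
def chi (p q : Ultrafilter ℕ) : Option ℕ → Fin 2 → (BF →⋆ₐ[ℂ] ℂ)
  | some n, _ => evB n
  | none, 0 => ulH p
  | none, 1 => ulH q

/-- the copy of the bounded sequences -/
def jH (p q : Ultrafilter ℕ) : BF →⋆ₐ[ℂ] (H2 →L[ℂ] H2) :=
  bdHom (fun s => dg.comp (piH (chi p q s)))

/-- blocks of `B` -/
def gam : Option ℕ → (CF × (E2 →L[ℂ] E2) →⋆ₐ[ℂ] (E2 →L[ℂ] E2))
  | some n => ((scE E2).comp (evC n)).comp (StarAlgHom.fst ℂ CF (E2 →L[ℂ] E2))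
  | none => StarAlgHom.snd ℂ CF (E2 →L[ℂ] E2)

/-- the representation defining `B` -/
def gamH : CF × (E2 →L[ℂ] E2) →⋆ₐ[ℂ] (H2 →L[ℂ] H2) := bdHom gam


/-- scalar matrices -/
def scm {k : ℕ} (a : Fin k → Fin k → ℂ) : Pow k ℂ →L[ℂ] Pow k ℂ := matOp (fun i j => scE ℂ (a i j))

lemma scm_apply {k : ℕ} (a : Fin k → Fin k → ℂ) (v : Pow k ℂ) (i : Fin k) :
    scm a v i = ∑ j, a i j * v j := by
  simp [scm, matOp_apply, scE_apply]

lemma dg_norm_sq (x : Fin 2 → ℂ) (v : E2) : ‖dg x v‖ ^ 2 = ∑ b, ‖x b‖ ^ 2 * ‖v b‖ ^ 2 := by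
  rw [PiLp.norm_sq_eq_of_L2]
  simp [dg_apply, mul_pow]

lemma dg_le {k : ℕ} (x : Fin k → Fin k → Fin 2 → ℂ) {c : ℝ} (hc : 0 ≤ c)
    (h : ∀ b, ‖scm (fun i j => x i j b)‖ ≤ c) : ‖matOp (fun i j => dg (x i j))‖ ≤ c := by
  refine opNorm_le_sq _ hc fun v => ?_
  rw [PiLp.norm_sq_eq_of_L2, PiLp.norm_sq_eq_of_L2]
  simp only [PiLp.norm_sq_eq_of_L2 (fun _ : Fin 2 => ℂ)]
  rw [Finset.sum_comm]
  rw [Finset.sum_comm (s := Finset.univ (α := Fin k))]
  rw [Finset.mul_sum]
  refine Finset.sum_le_sum fun b _ => ?_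
  have := sq_le_opNorm _ (h b) (WithLp.toLp 2 (fun j => v j b))
  rw [PiLp.norm_sq_eq_of_L2, PiLp.norm_sq_eq_of_L2] at this
  simp only [scm_apply] at this
  simpa [matOp_apply, dg_apply] using this

lemma dg_ge {k : ℕ} (x : Fin k → Fin k → Fin 2 → ℂ) (b : Fin 2) :
    ‖scm (fun i j => x i j b)‖ ≤ ‖matOp (fun i j => dg (x i j))‖ := by
  refine opNorm_le_sq _ (norm_nonneg (matOp (fun i j => dg (x i j)))) fun v => ?_
  have := sq_le_opNorm (matOp (fun i j => dg (x i j))) le_rfl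
    (WithLp.toLp 2 (fun j => EuclideanSpace.single b (v j)))
  rw [PiLp.norm_sq_eq_of_L2, PiLp.norm_sq_eq_of_L2] at this ⊢
  have e : ∀ i, (matOp (fun i j => dg (x i j)) (WithLp.toLp 2 (fun j => EuclideanSpace.single b (v j)))) i
      = EuclideanSpace.single b (scm (fun i j => x i j b) v i) := by
    intro i
    rw [matOp_apply, scm_apply]
    ext a
    rw [WithLp.ofLp_sum, Finset.sum_apply]
    by_cases ha : a = b
    · subst ha
      simp [dg_apply]
    · simp [dg_apply, ha]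
  simp only [e, EuclideanSpace.norm_single] at this
  exact this

lemma beta_ge {k : ℕ} (f : Fin k → Fin k → BF) (n : ℕ) :
    ‖scm (fun i j => f i j n)‖ ≤ ‖matOp (fun i j => betaH (f i j))‖ :=
  matOp_ge (fun i j => betaH (f i j)) (fun i j n => scE ℂ (f i j n)) (fun i j h s => rfl) n

lemma ul_scm {k : ℕ} (p : Ultrafilter ℕ) (f : Fin k → Fin k → BF) {c : ℝ} (hc : 0 ≤ c)
    (h : ∀ n, ‖scm (fun i j => f i j n)‖ ≤ c) : ‖scm (fun i j => ul p (f i j))‖ ≤ c := by
  refine opNorm_le_sq _ hc fun v => ?_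
  rw [PiLp.norm_sq_eq_of_L2]
  have ht : Tendsto (fun n => ∑ i, ‖scm (fun i j => f i j n) v i‖ ^ 2) (p : Filter ℕ)
      (𝓝 (∑ i, ‖scm (fun i j => ul p (f i j)) v i‖ ^ 2)) := by
    simp only [scm_apply]
    refine tendsto_finsetSum _ fun i _ => ?_
    refine Tendsto.pow ?_ 2
    refine Tendsto.norm ?_
    refine tendsto_finsetSum _ fun j _ => ?_
    exact (ul_tendsto p (f i j)).mul_const _
  refine le_of_tendsto' ht fun n => ?_
  have := sq_le_opNorm _ (h n) v
  rwa [PiLp.norm_sq_eq_of_L2] at this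

lemma j_isom (p q : Ultrafilter ℕ) {k : ℕ} (f : Fin k → Fin k → BF) :
    ‖matOp (fun i j => jH p q (f i j))‖ = ‖matOp (fun i j => betaH (f i j))‖ := by
  refine le_antisymm ?_ ?_
  · refine matOp_le _ (fun i j s => dg (piH (chi p q s) (f i j))) (fun i j h s => rfl)
      (norm_nonneg _) fun s => dg_le _ (norm_nonneg _) fun b => ?_
    match s, b with
    | some n, b => exact beta_ge f n
    | none, 0 => exact ul_scm p f (norm_nonneg _) (beta_ge f)
    | none, 1 => exact ul_scm q f (norm_nonneg _) (beta_ge f)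
  · refine matOp_le _ (fun i j n => scE ℂ (f i j n)) (fun i j h s => rfl) (norm_nonneg _) fun n => ?_
    have h1 := dg_ge (fun i j => piH (chi p q (some n)) (f i j)) 0
    have h2 := matOp_ge (fun i j => jH p q (f i j)) (fun i j s => dg (piH (chi p q s) (f i j)))
      (fun i j h s => rfl) (some n)
    exact h1.trans h2


lemma cf_tendsto (g : CF) : Tendsto (fun n : ℕ => g (n : OnePoint ℕ)) atTop (𝓝 (g OnePoint.infty)) :=
  (OnePoint.continuous_iff_from_nat g).1 g.continuous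

lemma ul_rc (p : Ultrafilter ℕ) (hp : (p : Filter ℕ) ≤ atTop) (g : CF) :
    ul p (rc g) = g OnePoint.infty :=
  ul_eq _ _ _ ((cf_tendsto g).mono_left hp)

lemma cf_ext (g g' : CF) (h : ∀ n : ℕ, g (n : OnePoint ℕ) = g' (n : OnePoint ℕ)) : g = g' := by
  ext x
  induction x using OnePoint.rec with
  | infty =>
    refine tendsto_nhds_unique (cf_tendsto g) ?_
    have := cf_tendsto g'
    simp only [h]
    exact this
  | coe n => exact h n

lemma beta_inj : Function.Injective betaH := by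
  intro f f' h
  ext n
  have := congrArg (fun T : K2 →L[ℂ] K2 => T (sg n 1) n) h
  simpa [betaH, bdHom_apply, sg_self, scE_apply] using this

/-- first basis vector -/
def e0 : E2 := EuclideanSpace.single 0 1

lemma j_inj (p q : Ultrafilter ℕ) : Function.Injective ((jH p q).comp rc) := by
  intro g g' h
  refine cf_ext _ _ fun n => ?_
  have := congrArg (fun T : H2 →L[ℂ] H2 => T (sg (some n) e0) (some n) 0) h
  simpa [jH, bdHom_apply, sg_self, piH, chi, dg_apply, e0, rc_apply] using this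

lemma gam_inj : Function.Injective gamH := by
  rintro ⟨g, M⟩ ⟨g', M'⟩ h
  have h1 : g = g' := by
    refine cf_ext _ _ fun n => ?_
    have := congrArg (fun T : H2 →L[ℂ] H2 => T (sg (some n) e0) (some n) 0) h
    simpa [gamH, gam, bdHom_apply, sg_self, scE_apply, e0] using this
  have h2 : M = M' := by
    ext x a
    have := congrArg (fun T : H2 →L[ℂ] H2 => T (sg none x) none a) h
    simpa [gamH, gam, bdHom_apply, sg_self] using this
  rw [h1, h2]

/-- The algebra `A`. -/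
def algA (p q : Ultrafilter ℕ) : StarSubalgebra ℂ (H2 →L[ℂ] H2) := ((jH p q).comp rc).range

/-- The algebra `B`. -/
def algB : StarSubalgebra ℂ (H2 →L[ℂ] H2) := gamH.range

/-- The algebra `I`. -/
def algI : StarSubalgebra ℂ (K2 →L[ℂ] K2) := betaH.range

lemma closed_range {𝒜 : Type} [CStarAlgebra 𝒜] {H : Type} [NormedAddCommGroup H]
    [InnerProductSpace ℂ H] [CompleteSpace H] (φ : 𝒜 →⋆ₐ[ℂ] (H →L[ℂ] H))
    (hφ : Function.Injective φ) : IsClosed (φ.range : Set (H →L[ℂ] H)) := by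
  have h1 : Isometry φ := NonUnitalStarAlgHom.isometry φ hφ
  exact h1.isClosedEmbedding.isClosed_range

lemma A_le_B (p q : Ultrafilter ℕ) (hp : (p : Filter ℕ) ≤ atTop) (hq : (q : Filter ℕ) ≤ atTop) :
    algA p q ≤ algB := by
  rintro T ⟨g, rfl⟩
  refine ⟨(g, scE E2 (g OnePoint.infty)), ?_⟩
  ext h s a
  match s with
  | some n =>
    simp [gamH, gam, bdHom_apply, jH, scE_apply, piH, chi, dg_apply, rc_apply]
  | none =>
    have : piH (chi p q none) (rc g) = fun _ => g OnePoint.infty := by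
      ext a
      fin_cases a
      · exact ul_rc p hp g
      · exact ul_rc q hq g
    simp [gamH, gam, bdHom_apply, jH, scE_apply, this, dg_apply]

/-- the isomorphism of bounded sequences with `I` -/
def eI : BF ≃⋆ₐ[ℂ] algI := StarAlgEquiv.ofInjective betaH beta_inj

/-- the isomorphism of convergent sequences with `A` -/
def eA (p q : Ultrafilter ℕ) : CF ≃⋆ₐ[ℂ] algA p q :=
  StarAlgEquiv.ofInjective ((jH p q).comp rc) (j_inj p q)

lemma eI_coe (f : BF) : (eI f : K2 →L[ℂ] K2) = betaH f := rfl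

lemma eA_coe (p q : Ultrafilter ℕ) (g : CF) : (eA p q g : H2 →L[ℂ] H2) = jH p q (rc g) := rfl

/-- the embedding of `A` into `I` -/
def iot (p q : Ultrafilter ℕ) : algA p q →⋆ₐ[ℂ] algI :=
  ((eI : BF →⋆ₐ[ℂ] algI).comp rc).comp ((eA p q).symm : algA p q →⋆ₐ[ℂ] CF)

lemma iot_apply (p q : Ultrafilter ℕ) (g : CF) :
    ((iot p q (eA p q g) : algI) : K2 →L[ℂ] K2) = betaH (rc g) := by
  have : iot p q (eA p q g) = eI (rc g) := by
    show eI (rc ((eA p q).symm (eA p q g))) = _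
    rw [StarAlgEquiv.symm_apply_apply]
  rw [this, eI_coe]

/-- the copy of `I` -/
def jL (p q : Ultrafilter ℕ) : lin algI →ₗ[ℂ] (H2 →L[ℂ] H2) where
  toFun x := jH p q (eI.symm x)
  map_add' x y := by
    have : eI.symm (x + y : lin algI) = eI.symm x + eI.symm y := map_add eI.symm (x : algI) (y : algI)
    rw [this, map_add]
  map_smul' c x := by
    have : eI.symm (c • x : lin algI) = c • eI.symm x := map_smul eI.symm c (x : algI)
    rw [this, map_smul]
    rfl

lemma jL_apply (p q : Ultrafilter ℕ) (f : BF) : jL p q (eI f) = jH p q f := by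
  show jH p q (eI.symm (eI f)) = _
  rw [StarAlgEquiv.symm_apply_apply]

lemma jL_iot (p q : Ultrafilter ℕ) (a : algA p q) : jL p q (iot p q a) = a := by
  obtain ⟨g, rfl⟩ := (eA p q).surjective a
  have : iot p q (eA p q g) = eI (rc g) := by
    show eI (rc ((eA p q).symm (eA p q g))) = _
    rw [StarAlgEquiv.symm_apply_apply]
  exact (congrArg (jL p q) this).trans (jL_apply p q (rc g))

lemma jL_isom (p q : Ultrafilter ℕ) : CompIsom1 (lin algI) (jL p q) := by
  intro k X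
  have h : ∀ i j, ∃ f : BF, X i j = eI f := fun i j => ⟨eI.symm (X i j), (eI.apply_symm_apply _).symm⟩
  choose f hf using h
  have e1 : (fun i j => jL p q (X i j)) = fun i j => jH p q (f i j) := by
    ext i j : 2
    rw [hf, jL_apply]
  have e2 : (fun i j => (X i j : K2 →L[ℂ] K2)) = fun i j => betaH (f i j) := by
    ext i j : 2
    rw [hf, eI_coe]
  rw [e1, e2]
  exact j_isom p q f

lemma iot_inj (p q : Ultrafilter ℕ) : Function.Injective (iot p q) := by
  intro a b h
  have := congrArg (fun x => jL p q x) h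
  simp only [jL_iot] at this
  exact Subtype.ext this


section one
variable {H : Type*} [NormedAddCommGroup H] [InnerProductSpace ℂ H]

lemma mat1_le (T : H →L[ℂ] H) : ‖matOp (fun _ _ : Fin 1 => T)‖ ≤ ‖T‖ := by
  refine opNorm_le_sq _ (norm_nonneg _) fun v => ?_
  rw [PiLp.norm_sq_eq_of_L2, PiLp.norm_sq_eq_of_L2]
  have := sq_le_opNorm T le_rfl (v 0)
  simpa [matOp_apply] using this

lemma mat1_ge (T : H →L[ℂ] H) : ‖T‖ ≤ ‖matOp (fun _ _ : Fin 1 => T)‖ := by
  refine opNorm_le_sq _ (norm_nonneg (matOp (fun _ _ : Fin 1 => T))) fun v => ?_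
  have := sq_le_opNorm (matOp (fun _ _ : Fin 1 => T)) le_rfl (WithLp.toLp 2 (fun _ => v))
  rw [PiLp.norm_sq_eq_of_L2, PiLp.norm_sq_eq_of_L2] at this
  simpa [matOp_apply] using this

/-- scalar compressions of an operator matrix -/
lemma comb_le {k : ℕ} (X : Fin k → Fin k → (H →L[ℂ] H)) (v w : Pow k ℂ) :
    ‖∑ i, ∑ j, (w i * v j) • X i j‖ ≤ ‖matOp X‖ * (‖v‖ * ‖w‖) := by
  refine ContinuousLinearMap.opNorm_le_bound _ (by positivity) fun h => ?_
  set V : Pow k H := WithLp.toLp 2 (fun j => v j • h) with hV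
  have hVn : ‖V‖ ^ 2 = (‖v‖ * ‖h‖) ^ 2 := by
    rw [mul_pow, PiLp.norm_sq_eq_of_L2, PiLp.norm_sq_eq_of_L2, Finset.sum_mul]
    simp [hV, norm_smul, mul_pow]
  have hVn' : ‖V‖ = ‖v‖ * ‖h‖ := by
    exact (sq_eq_sq₀ (norm_nonneg _) (by positivity)).1 hVn
  have e : (∑ i, ∑ j, (w i * v j) • X i j) h = ∑ i, w i • matOp X V i := by
    simp only [matOp_apply, hV]
    simp [Finset.smul_sum, mul_smul]
  rw [e]
  have h1 : ‖∑ i, w i • matOp X V i‖ ≤ ∑ i, ‖w i‖ * ‖matOp X V i‖ :=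
    (norm_sum_le _ _).trans (Finset.sum_le_sum fun i _ => (norm_smul_le _ _))
  have h2 : (∑ i, ‖w i‖ * ‖matOp X V i‖) ^ 2 ≤ (‖w‖ * ‖matOp X V‖) ^ 2 := by
    rw [mul_pow, PiLp.norm_sq_eq_of_L2, PiLp.norm_sq_eq_of_L2 (fun _ : Fin k => H)]
    exact Finset.sum_mul_sq_le_sq_mul_sq _ _ _
  have h3 := (abs_le_of_sq_le_sq' h2 (by positivity)).2
  calc ‖∑ i, w i • matOp X V i‖ ≤ ‖w‖ * ‖matOp X V‖ := h1.trans h3
    _ ≤ ‖w‖ * (‖matOp X‖ * ‖V‖) := by gcongr; exact (matOp X).le_opNorm V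
    _ = ‖matOp X‖ * (‖v‖ * ‖w‖) * ‖h‖ := by rw [hVn']; ring

lemma func_le {k : ℕ} (ψ : (H →L[ℂ] H) →L[ℂ] ℂ) (hψ : ‖ψ‖ ≤ 1) (X : Fin k → Fin k → (H →L[ℂ] H)) :
    ‖scm (fun i j => ψ (X i j))‖ ≤ ‖matOp X‖ := by
  refine bil_crit _ (norm_nonneg (matOp X)) fun v w hv hw => ?_
  set w' : Pow k ℂ := WithLp.toLp 2 (fun i => (starRingEnd ℂ) (w i)) with hw'
  have hwn : ‖w'‖ = ‖w‖ := by
    refine (sq_eq_sq₀ (norm_nonneg _) (by positivity)).1 ?_
    rw [PiLp.norm_sq_eq_of_L2, PiLp.norm_sq_eq_of_L2]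
    simp [hw']
  have e : inner ℂ w (scm (fun i j => ψ (X i j)) v) = ψ (∑ i, ∑ j, (w' i * v j) • X i j) := by
    rw [PiLp.inner_apply]
    simp only [scm_apply, map_sum, map_smul, hw', RCLike.inner_apply]
    refine Finset.sum_congr rfl fun i _ => ?_
    rw [Finset.sum_mul]
    refine Finset.sum_congr rfl fun j _ => ?_
    rw [smul_eq_mul]
    ring
  rw [e]
  calc _ ≤ ‖ψ‖ * ‖∑ i, ∑ j, (w' i * v j) • X i j‖ := ψ.le_opNorm _
    _ ≤ 1 * (‖matOp X‖ * (‖v‖ * ‖w'‖)) := by
        gcongr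
        exact comb_le X v w'
    _ ≤ ‖matOp X‖ := by
        rw [hwn, one_mul]
        have : ‖v‖ * ‖w‖ ≤ 1 := mul_le_one₀ hv (norm_nonneg _) hw
        nlinarith [norm_nonneg (matOp X)]

end one

/-- coordinate functional -/
def cof (n : ℕ) : (K2 →L[ℂ] K2) →ₗ[ℂ] ℂ where
  toFun T := T (sg n 1) n
  map_add' S T := by simp
  map_smul' c T := by simp

lemma cof_le (n : ℕ) (T : K2 →L[ℂ] K2) : ‖cof n T‖ ≤ ‖T‖ := by
  calc ‖cof n T‖ ≤ ‖T (sg n 1)‖ := lp.norm_apply_le_norm (by norm_num) (T (sg n 1)) n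
    _ ≤ ‖T‖ * ‖(sg n 1 : K2)‖ := T.le_opNorm _
    _ = ‖T‖ := by rw [sg_norm]; simp

lemma cof_beta (n : ℕ) (f : BF) : cof n (betaH f) = f n := by
  show betaH f (sg n 1) n = f n
  simp [betaH, bdHom_apply, sg_self, scE_apply]

lemma I_injective1.{u} : IsInjective1.{u, 0} algI := by
  intro L _ _ _ E F hEF u hu hc
  have hu1 : ∀ x : E, ‖u x‖ ≤ ‖(x : L →L[ℂ] L)‖ := fun x =>
    (mat1_ge (u x)).trans ((hc 1 (fun _ _ => x)).trans (mat1_le _))
  have hext : ∀ n : ℕ, ∃ ψ : (L →L[ℂ] L) →L[ℂ] ℂ, (∀ x : E, ψ x = cof n (u x)) ∧ ‖ψ‖ ≤ 1 := by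
    intro n
    let φ : E →L[ℂ] ℂ := LinearMap.mkContinuous ((cof n).comp u) 1 (fun x => by
      rw [one_mul]
      exact (cof_le n (u x)).trans (hu1 x))
    obtain ⟨ψ, h1, h2⟩ := exists_extension_norm_eq E φ
    refine ⟨ψ, fun x => h1 x, ?_⟩
    rw [h2]
    exact LinearMap.mkContinuous_norm_le _ zero_le_one _
  choose ψ hψ1 hψ2 using hext
  have hb : ∀ (x : L →L[ℂ] L) (n : ℕ), ‖ψ n x‖ ≤ ‖x‖ := fun x n => by
    have := (ψ n).le_of_opNorm_le (hψ2 n) x
    simpa using this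
  let sq : (L →L[ℂ] L) → BF := fun x =>
    BoundedContinuousFunction.ofNormedAddCommGroupDiscrete (fun n => ψ n x) ‖x‖ (hb x)
  have hsq : ∀ x n, sq x n = ψ n x := fun x n => rfl
  let v : F →ₗ[ℂ] (K2 →L[ℂ] K2) :=
    { toFun := fun x => betaH (sq x)
      map_add' := fun x y => by
        rw [← map_add]
        congr 1
        ext n
        simp [hsq]
      map_smul' := fun c x => by
        rw [RingHom.id_apply, ← map_smul]
        congr 1
        ext n
        simp [hsq] }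
  refine ⟨v, fun x => ⟨sq x, rfl⟩, ?_, ?_⟩
  · intro k X
    refine matOp_le _ (fun i j n => scE ℂ (ψ n (X i j))) (fun i j h s => rfl) (norm_nonneg _)
      fun n => ?_
    exact func_le (ψ n) (hψ2 n) (fun i j => (X i j : L →L[ℂ] L))
  · intro x
    obtain ⟨f, hf⟩ : ∃ f, betaH f = u x := hu x
    show betaH (sq x) = u x
    rw [← hf]
    refine congrArg betaH ?_
    ext n
    rw [hsq, hψ1, ← hf]
    exact cof_beta n f

/-- the indicator function of a natural number -/
def dl (n : ℕ) : CF := OnePoint.continuousMapMkNat (fun m => if m = n then 1 else 0) 0 (by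
  refine tendsto_const_nhds.congr' ?_
  filter_upwards [eventually_gt_atTop n] with m hm
  simp [hm.ne'])

lemma dl_apply (n m : ℕ) : rc (dl n) m = if m = n then 1 else 0 := rfl

lemma beta_norm_le (f : BF) {c : ℝ} (hc : 0 ≤ c) (h : ∀ n, ‖f n‖ ≤ c) : ‖betaH f‖ ≤ c := by
  refine (NonUnitalStarAlgHom.norm_apply_le betaH f).trans ?_
  exact (BoundedContinuousFunction.norm_le hc).2 h

lemma I_rigid (p q : Ultrafilter ℕ) (u : lin algI →ₗ[ℂ] (K2 →L[ℂ] K2)) (hu : ∀ x, u x ∈ algI)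
    (hc : CompContr1 (lin algI) u) (hA : ∀ a : algA p q, u (iot p q a) = (iot p q a : K2 →L[ℂ] K2)) :
    ∀ x, u x = x := by
  have hu1 : ∀ x : lin algI, ‖u x‖ ≤ ‖(x : K2 →L[ℂ] K2)‖ := fun x =>
    (mat1_ge (u x)).trans ((hc 1 (fun _ _ => x)).trans (mat1_le _))
  have hA' : ∀ g : CF, u (eI (rc g)) = betaH (rc g) := by
    intro g
    have h1 : iot p q (eA p q g) = eI (rc g) := by
      show eI (rc ((eA p q).symm (eA p q g))) = _
      rw [StarAlgEquiv.symm_apply_apply]
    have h2 := hA (eA p q g)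
    rw [← eI_coe (rc g), ← h1]
    exact h2
  -- the coordinate functional
  have key : ∀ (n : ℕ) (f : BF), f n = 0 → cof n (u (eI f)) = 0 := by
    intro n f hf
    by_contra hne
    set z := cof n (u (eI f)) with hz
    have hzp : 0 < ‖z‖ := norm_pos_iff.2 hne
    set t : ℝ := 1 / ((‖f‖ + 1) * ‖z‖) with ht
    have htp : 0 < t := by positivity
    set c : ℂ := (t : ℂ) * (starRingEnd ℂ) z with hcd
    have hcn : ‖c‖ * ‖f‖ ≤ 1 := by
      rw [hcd, norm_mul, Complex.norm_real, Real.norm_of_nonneg htp.le, RCLike.norm_conj, ht]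
      rw [div_mul_eq_mul_div, one_mul, div_mul_eq_mul_div, div_le_one (by positivity)]
      nlinarith [norm_nonneg f]
    have h1 : ‖cof n (u (eI (rc (dl n) + c • f)))‖ ≤ 1 := by
      refine (cof_le n _).trans ((hu1 _).trans ?_)
      rw [eI_coe]
      refine beta_norm_le _ zero_le_one fun m => ?_
      show ‖rc (dl n) m + c * f m‖ ≤ 1
      rw [dl_apply]
      by_cases hm : m = n
      · subst hm
        simp [hf]
      · simp only [hm, if_false, zero_add, norm_mul]
        exact (mul_le_mul_of_nonneg_left (f.norm_coe_le_norm m) (norm_nonneg _)).trans hcn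
    have h2 : cof n (u (eI (rc (dl n) + c • f))) = 1 + c * z := by
      have e1 : (eI (rc (dl n) + c • f) : lin algI) = (eI (rc (dl n)) : lin algI) + c • (eI f : lin algI) := by
        have : eI (rc (dl n) + c • f) = eI (rc (dl n)) + c • eI f := by rw [map_add, map_smul]
        exact this
      have e2 : cof n (u (eI (rc (dl n)))) = 1 := by
        rw [hA', cof_beta, dl_apply, if_pos rfl]
      rw [e1, map_add, map_add, map_smul, map_smul, e2, smul_eq_mul]
    rw [h2, hcd, mul_assoc, Complex.conj_mul'] at h1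
    have h3 : (1 : ℂ) + (t : ℂ) * (‖z‖ : ℂ) ^ 2 = ((1 + t * ‖z‖ ^ 2 : ℝ) : ℂ) := by
      push_cast; ring
    rw [h3, Complex.norm_real, Real.norm_of_nonneg (by positivity)] at h1
    have : 0 < t * ‖z‖ ^ 2 := by positivity
    linarith
  have key2 : ∀ (n : ℕ) (f : BF), cof n (u (eI f)) = f n := by
    intro n f
    have h1 := key n (f - f n • rc (dl n)) (by
      show f n - f n * rc (dl n) n = 0
      rw [dl_apply, if_pos rfl, mul_one, sub_self])
    have e1 : (eI (f - f n • rc (dl n)) : lin algI) = (eI f : lin algI) - f n • (eI (rc (dl n)) : lin algI) := by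
      have : eI (f - f n • rc (dl n)) = eI f - f n • eI (rc (dl n)) := by rw [map_sub, map_smul]
      exact this
    rw [e1, map_sub, map_sub, map_smul, map_smul, hA', cof_beta, dl_apply, if_pos rfl,
      smul_eq_mul, mul_one, sub_eq_zero] at h1
    exact h1
  intro x
  obtain ⟨f, rfl⟩ : ∃ f : BF, x = eI f := ⟨eI.symm x, (eI.apply_symm_apply x).symm⟩
  obtain ⟨f', hf'⟩ : ∃ f', betaH f' = u (eI f) := hu (eI f)
  have : f' = f := by
    ext n
    rw [← cof_beta n f', hf', key2]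
  rw [← hf', this]
  rfl

lemma envelope1.{u} (p q : Ultrafilter ℕ) : IsInjEnvelope1.{u, 0} (algA p q) algI (iot p q) :=
  ⟨iot_inj p q, I_injective1.{u}, I_rigid p q⟩


lemma rxc_le {H : Type*} [NormedAddCommGroup H] [InnerProductSpace ℂ H] {k : ℕ}
    (R C : Fin k → (H →L[ℂ] H)) (X : Fin k → Fin k → (H →L[ℂ] H)) (hR : ‖rowOp R‖ ≤ 1)
    (hC : ‖colOp C‖ ≤ 1) : ‖rowOp R ∘L matOp X ∘L colOp C‖ ≤ ‖matOp X‖ := by
  calc ‖rowOp R ∘L matOp X ∘L colOp C‖ ≤ ‖rowOp R‖ * ‖matOp X ∘L colOp C‖ :=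
        ContinuousLinearMap.opNorm_comp_le _ _
    _ ≤ 1 * (‖matOp X‖ * 1) := by
        gcongr
        exact (ContinuousLinearMap.opNorm_comp_le _ _).trans (by gcongr)
    _ = ‖matOp X‖ := by ring

/-- a bounded sequence with two values -/
def two (c : Fin 2 → ℂ) : BF :=
  BoundedContinuousFunction.ofNormedAddCommGroupDiscrete (fun n : ℕ => if Even n then c 0 else c 1)
    (‖c 0‖ + ‖c 1‖) (fun n => by
      split_ifs
      · linarith [norm_nonneg (c 1)]
      · linarith [norm_nonneg (c 0)])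

lemma two_apply (c : Fin 2 → ℂ) (n : ℕ) : two c n = if Even n then c 0 else c 1 := rfl

/-- the ultrafilters we use -/
structure Good (p q : Ultrafilter ℕ) : Prop where
  hp : (p : Filter ℕ) ≤ atTop
  hq : (q : Filter ℕ) ≤ atTop
  ev : {n : ℕ | Even n} ∈ p
  od : {n : ℕ | ¬ Even n} ∈ q

lemma exists_good : ∃ p q : Ultrafilter ℕ, Good p q := by
  have h1 : (atTop ⊓ 𝓟 {n : ℕ | Even n} : Filter ℕ).NeBot := by
    rw [← frequently_mem_iff_neBot, frequently_atTop]
    intro a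
    exact ⟨2 * a, by omega, even_two_mul a⟩
  have h2 : (atTop ⊓ 𝓟 {n : ℕ | ¬ Even n} : Filter ℕ).NeBot := by
    rw [← frequently_mem_iff_neBot, frequently_atTop]
    intro a
    exact ⟨2 * a + 1, by omega, by simp⟩
  refine ⟨Ultrafilter.of (atTop ⊓ 𝓟 {n : ℕ | Even n}), Ultrafilter.of (atTop ⊓ 𝓟 {n : ℕ | ¬ Even n}), ?_, ?_, ?_, ?_⟩
  · exact (Ultrafilter.of_le _).trans inf_le_left
  · exact (Ultrafilter.of_le _).trans inf_le_left
  · exact le_principal_iff.1 ((Ultrafilter.of_le (atTop ⊓ 𝓟 {n : ℕ | Even n})).trans inf_le_right)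
  · exact le_principal_iff.1 ((Ultrafilter.of_le (atTop ⊓ 𝓟 {n : ℕ | ¬ Even n})).trans inf_le_right)

/-- the index of the value used at a coordinate -/
def tau : Option ℕ → Fin 2 → Fin 2
  | some n, _ => if Even n then 0 else 1
  | none, a => a

lemma chi_two {p q : Ultrafilter ℕ} (hg : Good p q) (c : Fin 2 → ℂ) (s : Option ℕ) (a : Fin 2) :
    chi p q s a (two c) = c (tau s a) := by
  match s, a with
  | some n, a =>
    show two c n = _
    rw [two_apply]
    simp only [tau]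
    split_ifs <;> rfl
  | none, 0 =>
    show ul p (two c) = c 0
    refine ul_eq _ _ _ (tendsto_const_nhds.congr' ?_)
    filter_upwards [hg.ev] with n hn
    rw [two_apply, if_pos hn]
  | none, 1 =>
    show ul q (two c) = c 1
    refine ul_eq _ _ _ (tendsto_const_nhds.congr' ?_)
    filter_upwards [hg.od] with n hn
    rw [two_apply, if_neg hn]

lemma jH_two {p q : Ultrafilter ℕ} (hg : Good p q) (c : Fin 2 → ℂ) (h : H2) (s : Option ℕ) :
    jH p q (two c) h s = dg (fun a => c (tau s a)) (h s) := by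
  show dg (piH (chi p q s) (two c)) (h s) = _
  congr 2
  ext a
  exact chi_two hg c s a

lemma col_two {p q : Ultrafilter ℕ} (hg : Good p q) {k : ℕ} (c : Fin k → Fin 2 → ℂ)
    (hc : ∀ b, ∑ j, ‖c j b‖ ^ 2 ≤ 1) : ‖colOp (fun j => jH p q (two (c j)))‖ ≤ 1 := by
  refine col_le _ (fun j s => dg (fun a => c j (tau s a))) (fun i h s => jH_two hg _ h s) fun s x => ?_
  simp only [dg_norm_sq]
  rw [Finset.sum_comm, PiLp.norm_sq_eq_of_L2]
  refine Finset.sum_le_sum fun a _ => ?_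
  rw [← Finset.sum_mul]
  have := mul_le_mul_of_nonneg_right (hc (tau s a)) (sq_nonneg ‖x a‖)
  simpa using this

lemma row_two {p q : Ultrafilter ℕ} (hg : Good p q) {k : ℕ} (c : Fin k → Fin 2 → ℂ)
    (hc : ∀ b, ∑ j, ‖c j b‖ ^ 2 ≤ 1) : ‖rowOp (fun j => jH p q (two (c j)))‖ ≤ 1 := by
  refine row_le _ (fun j s => dg (fun a => c j (tau s a))) (fun i h s => jH_two hg _ h s) fun s x => ?_
  simp only [PiLp.norm_sq_eq_of_L2 (fun _ : Fin 2 => ℂ)]
  rw [Finset.sum_comm (s := Finset.univ (α := Fin k))]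
  refine Finset.sum_le_sum fun a _ => ?_
  rw [WithLp.ofLp_sum, Finset.sum_apply]
  simp only [dg_apply]
  have h1 : ‖∑ i, c i (tau s a) * x i a‖ ≤ ∑ i, ‖c i (tau s a)‖ * ‖x i a‖ :=
    (norm_sum_le _ _).trans (Finset.sum_le_sum fun i _ => (norm_mul_le _ _))
  have h2 : (∑ i, ‖c i (tau s a)‖ * ‖x i a‖) ^ 2 ≤
      (∑ i, ‖c i (tau s a)‖ ^ 2) * ∑ i, ‖x i a‖ ^ 2 := Finset.sum_mul_sq_le_sq_mul_sq _ _ _
  have h3 := mul_le_mul_of_nonneg_right (hc (tau s a)) (Finset.sum_nonneg fun i (_ : i ∈ Finset.univ) => sq_nonneg ‖x i a‖)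
  calc _ ≤ (∑ i, ‖c i (tau s a)‖ * ‖x i a‖) ^ 2 := by gcongr
    _ ≤ _ := h2.trans (by simpa using h3)

lemma norms_j {p q : Ultrafilter ℕ} (hg : Good p q) :
    Norms (Set.range (jL p q)) (algB : Set (H2 →L[ℂ] H2)) := by
  intro k hk X hX
  have hX' : ∀ i j, ∃ G : CF × (E2 →L[ℂ] E2), gamH G = X i j := fun i j => hX i j
  choose G hG using hX'
  constructor
  · rintro r ⟨R, C, -, -, hR, hC, rfl⟩
    exact rxc_le R C X hR hC
  · intro b hb
    have key : ∀ (r c : Fin k → Fin 2 → ℂ), (∀ b, ∑ j, ‖r j b‖ ^ 2 ≤ 1) →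
        (∀ b, ∑ j, ‖c j b‖ ^ 2 ≤ 1) → ‖rowOp (fun j => jH p q (two (r j))) ∘L matOp X ∘L
          colOp (fun j => jH p q (two (c j)))‖ ≤ b := by
      intro r c hr hc
      refine hb ⟨_, _, ?_, ?_, row_two hg r hr, col_two hg c hc, rfl⟩
      · intro i; exact ⟨eI (two (r i)), jL_apply p q _⟩
      · intro i; exact ⟨eI (two (c i)), jL_apply p q _⟩
    have hb0 : 0 ≤ b := (norm_nonneg _).trans (key (fun _ _ => 0) (fun _ _ => 0) (by simp) (by simp))
    have hXs : ∀ i j h s, X i j h s = gam s (G i j) (h s) := by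
      intro i j h s
      rw [← hG]
      rfl
    have hsg : ∀ (r c : Fin k → Fin 2 → ℂ) (s : Option ℕ) (y : E2),
        (rowOp (fun j => jH p q (two (r j))) ∘L matOp X ∘L
          colOp (fun j => jH p q (two (c j)))) (sg s y) = sg s (∑ i, dg (fun a => r i (tau s a))
            (∑ j, gam s (G i j) (dg (fun a => c j (tau s a)) y))) := by
      intro r c s y
      rw [rxc_apply]
      have e1 : ∀ (c : Fin 2 → ℂ) (y : E2), jH p q (two c) (sg s y) =
          sg s (dg (fun a => c (tau s a)) y) := fun c y =>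
        op_sg _ (fun s => dg (fun a => c (tau s a))) (fun h s => jH_two hg c h s) s y
      have e2 : ∀ i j (y : E2), X i j (sg s y) = sg s (gam s (G i j) y) := fun i j y =>
        op_sg _ (fun s => gam s (G i j)) (hXs i j) s y
      simp only [e1, e2, sg_sum]
    refine matOp_le X (fun i j s => gam s (G i j)) hXs hb0 fun s => ?_
    match s with
    | some n =>
      have e : (fun i j => gam (some n) (G i j)) =
          fun i j => dg (fun _ => (G i j).1 (n : OnePoint ℕ)) := by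
        ext i j x a
        simp [gam, scE_apply, dg_apply]
      rw [e]
      refine dg_le _ hb0 fun _ => ?_
      refine bil_crit _ hb0 fun v w hv hw => ?_
      have h1 := key (fun i _ => (starRingEnd ℂ) (w i)) (fun j _ => v j) (by
        intro _
        have := pow_le_pow_left₀ (norm_nonneg _) hw 2
        rw [PiLp.norm_sq_eq_of_L2] at this
        simpa using this) (by
        intro _
        have := pow_le_pow_left₀ (norm_nonneg _) hv 2
        rw [PiLp.norm_sq_eq_of_L2] at this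
        simpa using this)
      have h2 := ContinuousLinearMap.le_of_opNorm_le _ h1 (sg (some n) e0)
      rw [hsg, sg_norm, sg_norm] at h2
      have h3 : ∑ i, dg (fun _ => (starRingEnd ℂ) (w i))
            (∑ j, gam (some n) (G i j) (dg (fun _ => v j) e0)) =
          (inner ℂ w (scm (fun i j => (G i j).1 (n : OnePoint ℕ)) v)) • e0 := by
        rw [PiLp.inner_apply]
        ext a
        simp only [scm_apply, RCLike.inner_apply]
        simp [dg_apply, gam, scE_apply, Finset.mul_sum, mul_assoc, mul_comm, mul_left_comm]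
      rw [h3, norm_smul] at h2
      have h4 : ‖e0‖ = 1 := by simp [e0]
      rw [h4] at h2
      simpa using h2
    | none =>
      refine bil_crit _ hb0 fun v w hv hw => ?_
      set y : E2 := WithLp.toLp 2 (fun a => ((√(∑ j, ‖v j a‖ ^ 2) : ℝ) : ℂ)) with hy
      set z : E2 := WithLp.toLp 2 (fun a => ((√(∑ j, ‖w j a‖ ^ 2) : ℝ) : ℂ)) with hz
      have hyz : ∀ (u : Pow k E2) (c : Fin k → Fin 2 → ℂ),
          (∀ j a, c j a = u j a / ((√(∑ j, ‖u j a‖ ^ 2) : ℝ) : ℂ)) →
          (∀ b, ∑ j, ‖c j b‖ ^ 2 ≤ 1) ∧ (∀ j a, c j a * ((√(∑ j, ‖u j a‖ ^ 2) : ℝ) : ℂ) = u j a) := by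
        intro u c hc
        constructor
        · intro b
          have h0 : 0 ≤ ∑ j, ‖u j b‖ ^ 2 := Finset.sum_nonneg fun j _ => sq_nonneg _
          simp only [hc, norm_div, Complex.norm_real, div_pow, Real.norm_eq_abs, sq_abs,
            Real.sq_sqrt h0]
          rw [← Finset.sum_div]
          exact div_self_le_one _
        · intro j a
          rw [hc]
          by_cases h0 : √(∑ j, ‖u j a‖ ^ 2) = 0
          · have h0' : 0 ≤ ∑ j, ‖u j a‖ ^ 2 := Finset.sum_nonneg fun j _ => sq_nonneg _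
            rw [Real.sqrt_eq_zero h0', Finset.sum_eq_zero_iff_of_nonneg (fun j _ => sq_nonneg _)] at h0
            have := h0 j (Finset.mem_univ _)
            have h1 : u j a = 0 := by simpa using this
            simp [h1]
          · have h1 : ((√(∑ j, ‖u j a‖ ^ 2) : ℝ) : ℂ) ≠ 0 := by exact_mod_cast h0
            field_simp
      obtain ⟨hc1, hc2⟩ := hyz v (fun j a => v j a / ((√(∑ j, ‖v j a‖ ^ 2) : ℝ) : ℂ)) (fun _ _ => rfl)
      obtain ⟨hr1, hr2⟩ := hyz w (fun j a => w j a / ((√(∑ j, ‖w j a‖ ^ 2) : ℝ) : ℂ)) (fun _ _ => rfl)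
      have hn : ∀ (u : Pow k E2) (y : E2), (∀ a, y a = ((√(∑ j, ‖u j a‖ ^ 2) : ℝ) : ℂ)) → ‖u‖ ≤ 1 →
          ‖y‖ ≤ 1 := by
        intro u y hy hu
        have h1 := pow_le_pow_left₀ (norm_nonneg _) hu 2
        rw [PiLp.norm_sq_eq_of_L2] at h1
        simp only [PiLp.norm_sq_eq_of_L2 (fun _ : Fin 2 => ℂ)] at h1
        rw [Finset.sum_comm] at h1
        have h2 : ‖y‖ ^ 2 ≤ 1 ^ 2 := by
          rw [PiLp.norm_sq_eq_of_L2]
          simp only [hy, Complex.norm_real, Real.norm_eq_abs, sq_abs]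
          refine le_trans (le_of_eq (Finset.sum_congr rfl fun a _ => Real.sq_sqrt
            (Finset.sum_nonneg fun j _ => sq_nonneg _))) h1
        exact (abs_le_of_sq_le_sq' h2 (by norm_num)).2
      have hyn : ‖y‖ ≤ 1 := hn v y (fun a => rfl) hv
      have hzn : ‖z‖ ≤ 1 := hn w z (fun a => rfl) hw
      have h1 := key (fun i a => (starRingEnd ℂ) (w i a / ((√(∑ j, ‖w j a‖ ^ 2) : ℝ) : ℂ)))
        (fun j a => v j a / ((√(∑ j, ‖v j a‖ ^ 2) : ℝ) : ℂ)) (by simpa using hr1) hc1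
      have h2 := ContinuousLinearMap.le_of_opNorm_le _ h1 (sg none y)
      rw [hsg, sg_norm, sg_norm] at h2
      have h3 : ∀ j, dg (fun a => v j (tau none a) / ((√(∑ j, ‖v j (tau none a)‖ ^ 2) : ℝ) : ℂ)) y = v j := by
        intro j
        ext a
        rw [dg_apply]
        exact hc2 j a
      simp only [h3] at h2
      have h4 : inner ℂ w (matOp (fun i j => gam none (G i j)) v) =
          inner ℂ z (∑ i, dg (fun a => (starRingEnd ℂ) (w i (tau none a) / ((√(∑ j, ‖w j (tau none a)‖ ^ 2) : ℝ) : ℂ)))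
            (∑ j, gam none (G i j) (v j))) := by
        rw [inner_sum, PiLp.inner_apply]
        refine Finset.sum_congr rfl fun i _ => ?_
        rw [matOp_apply, PiLp.inner_apply, PiLp.inner_apply]
        refine Finset.sum_congr rfl fun a _ => ?_
        rw [dg_apply, RCLike.inner_apply, RCLike.inner_apply, ← hr2 i a]
        simp only [tau, hz, map_mul, Complex.conj_ofReal]
        ring
      rw [h4]
      refine (norm_inner_le_norm _ _).trans ?_
      calc _ ≤ 1 * (b * 1) := by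
            gcongr
            exact h2.trans (by gcongr)
        _ = b := by ring


/-- half a matrix unit -/
def hm (i j : Fin 2) : E2 →L[ℂ] E2 :=
  Matrix.toEuclideanCLM (n := Fin 2) (𝕜 := ℂ) (Matrix.single i j (1 / 2))

lemma hm_apply (i j : Fin 2) (x : E2) : hm i j x = EuclideanSpace.single i (1 / 2 * x j) := by
  ext a
  rw [hm, Matrix.ofLp_toEuclideanCLM, Matrix.single_mulVec]
  rw [Function.update_apply]
  by_cases h : a = i
  · subst h; simp
  · simp [h]

/-- the matrix over `B` whose norm is not attained by `A` -/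
def X0 : Fin 2 → Fin 2 → (H2 →L[ℂ] H2) := fun i j => gamH (0, hm i j)

lemma X0_apply (i j : Fin 2) (h : H2) : X0 i j h = sg none (hm i j (h none)) := by
  ext s : 2
  match s with
  | some n =>
    rw [sg_ne none (some n) _ (by simp)]
    show scE E2 0 (h (some n)) = 0
    simp [scE_apply]
  | none =>
    rw [sg_self]
    rfl

lemma X0_norm : 1 ≤ ‖matOp X0‖ := by
  set v : Pow 2 H2 := WithLp.toLp 2 (fun j => sg none (EuclideanSpace.single j 1)) with hv
  have h1 : matOp X0 v = v := by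
    ext i : 1
    rw [matOp_apply]
    simp only [X0_apply, hv, sg_self, hm_apply]
    rw [sg_sum]
    congr 1
    simp only [EuclideanSpace.single_apply, if_true, mul_one, Fin.sum_univ_two]
    ext a
    by_cases h : a = i
    · subst h
      simp
      norm_num
    · simp [h]
  have h2 : 0 < ‖v‖ := by
    rw [norm_pos_iff]
    intro h0
    have : v 0 = 0 := by rw [h0]; rfl
    have h3 : ‖v 0‖ = 1 := by
      simp [hv, sg_norm]
    rw [this, norm_zero] at h3
    exact zero_ne_one h3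
  have h3 := (matOp X0).le_opNorm v
  rw [h1] at h3
  nlinarith

lemma jH_rc {p q : Ultrafilter ℕ} (hg : Good p q) (g : CF) (h : H2) :
    jH p q (rc g) h none = g OnePoint.infty • h none := by
  show dg (piH (chi p q none) (rc g)) (h none) = _
  ext a
  rw [dg_apply]
  fin_cases a
  · show ul p (rc g) * _ = _
    rw [ul_rc p hg.hp]
    rfl
  · show ul q (rc g) * _ = _
    rw [ul_rc q hg.hq]
    rfl

lemma jH_rc_sg {p q : Ultrafilter ℕ} (hg : Good p q) (g : CF) (x : E2) :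
    jH p q (rc g) (sg none x) = sg none (g OnePoint.infty • x) := by
  rw [op_sg (jH p q (rc g)) (fun s => dg (piH (chi p q s) (rc g))) (fun h s => rfl)]
  congr 1
  have := jH_rc hg g (sg none x)
  rw [sg_self] at this
  rw [← this]
  show _ = dg (piH (chi p q none) (rc g)) ((sg none x : H2) none)
  rw [sg_self]

lemma not_norms {p q : Ultrafilter ℕ} (hg : Good p q) :
    ¬ Norms (algA p q : Set (H2 →L[ℂ] H2)) (algB : Set (H2 →L[ℂ] H2)) := by
  intro hN
  have h1 := hN 2 (by norm_num) X0 (fun i j => ⟨(0, hm i j), rfl⟩)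
  have h2 : (1 / 2 : ℝ) ∈ upperBounds {r : ℝ | ∃ R C : Fin 2 → (H2 →L[ℂ] H2),
      (∀ i, R i ∈ (algA p q : Set (H2 →L[ℂ] H2))) ∧ (∀ i, C i ∈ (algA p q : Set (H2 →L[ℂ] H2))) ∧
      ‖rowOp R‖ ≤ 1 ∧ ‖colOp C‖ ≤ 1 ∧ r = ‖rowOp R ∘L matOp X0 ∘L colOp C‖} := by
    rintro r ⟨R, C, hR, hC, hRn, hCn, rfl⟩
    have hR' : ∀ i, ∃ g : CF, jH p q (rc g) = R i := fun i => hR i
    have hC' : ∀ i, ∃ g : CF, jH p q (rc g) = C i := fun i => hC i
    choose r hr using hR'
    choose c hc using hC'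
    have hcs : ∑ j, ‖(c j) OnePoint.infty‖ ^ 2 ≤ 1 := by
      have := sq_le_opNorm _ hCn (sg none e0)
      rw [PiLp.norm_sq_eq_of_L2, sg_norm] at this
      simp only [colOp_apply, ← hc, jH_rc_sg hg, sg_norm, norm_smul] at this
      simpa [e0] using this
    have hrs : ∑ j, ‖(r j) OnePoint.infty‖ ^ 2 ≤ 1 := by
      set S := ∑ j, ‖(r j) OnePoint.infty‖ ^ 2 with hS
      have hS0 : 0 ≤ S := Finset.sum_nonneg fun j _ => sq_nonneg _
      have := sq_le_opNorm _ hRn (WithLp.toLp 2 (fun i => sg none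
        ((starRingEnd ℂ) ((r i) OnePoint.infty) • e0)))
      rw [PiLp.norm_sq_eq_of_L2] at this
      simp only [rowOp_apply, ← hr, jH_rc_sg hg, sg_norm, norm_smul, sg_sum, smul_smul,
        Complex.mul_conj', ← Finset.sum_smul] at this
      have h5 : (∑ x, ((‖(r x) OnePoint.infty‖ : ℂ)) ^ 2) = ((S : ℝ) : ℂ) := by
        rw [hS]; push_cast; rfl
      rw [h5, Complex.norm_real, Real.norm_of_nonneg hS0] at this
      have h6 : ‖e0‖ = 1 := by simp [e0]
      simp only [h6, mul_one, RCLike.norm_conj, one_pow, one_mul] at this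
      rw [← hS] at this
      nlinarith
    refine opNorm_le_sq _ (by norm_num) fun h => ?_
    have e : (rowOp R ∘L matOp X0 ∘L colOp C) h = sg none (∑ i, (r i) OnePoint.infty •
        ∑ j, hm i j ((c j) OnePoint.infty • h none)) := by
      rw [rxc_apply]
      simp only [X0_apply, ← hc, ← hr, jH_rc hg, sg_sum, jH_rc_sg hg]
    rw [e, sg_norm]
    have e2 : (∑ i, (r i) OnePoint.infty • ∑ j, hm i j ((c j) OnePoint.infty • h none) : E2) =
        WithLp.toLp 2 (fun i => (r i) OnePoint.infty * (1 / 2 * ∑ j, (c j) OnePoint.infty * h none j)) := by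
      ext a
      simp only [hm_apply]
      fin_cases a
      · simp [Fin.sum_univ_two]
        ring
      · simp [Fin.sum_univ_two]
        ring
    rw [e2, PiLp.norm_sq_eq_of_L2]
    simp only [norm_mul, mul_pow]
    rw [← Finset.sum_mul]
    have h7 : ‖∑ j, (c j) OnePoint.infty * h none j‖ ^ 2 ≤ ‖h‖ ^ 2 := by
      have h8 : ‖∑ j, (c j) OnePoint.infty * h none j‖ ≤
          ∑ j, ‖(c j) OnePoint.infty‖ * ‖h none j‖ :=
        (norm_sum_le _ _).trans (Finset.sum_le_sum fun j _ => norm_mul_le _ _)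
      have h9 : (∑ j, ‖(c j) OnePoint.infty‖ * ‖h none j‖) ^ 2 ≤
          (∑ j, ‖(c j) OnePoint.infty‖ ^ 2) * ∑ j, ‖h none j‖ ^ 2 := Finset.sum_mul_sq_le_sq_mul_sq _ _ _
      have h10 : ∑ j, ‖h none j‖ ^ 2 ≤ ‖h‖ ^ 2 := by
        rw [← PiLp.norm_sq_eq_of_L2]
        have : ‖h none‖ ≤ ‖h‖ := lp.norm_apply_le_norm (by norm_num) h none
        gcongr
      have h11 : 0 ≤ ∑ j, ‖h none j‖ ^ 2 := Finset.sum_nonneg fun j _ => sq_nonneg _
      calc _ ≤ (∑ j, ‖(c j) OnePoint.infty‖ * ‖h none j‖) ^ 2 := by gcongr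
        _ ≤ 1 * ∑ j, ‖h none j‖ ^ 2 := h9.trans (mul_le_mul_of_nonneg_right hcs h11)
        _ ≤ _ := by rw [one_mul]; exact h10
    have h12 : ‖(1 / 2 : ℂ)‖ ^ 2 = 1 / 4 := by
      rw [norm_div]; norm_num
    rw [h12]
    have h13 : 0 ≤ ∑ j, ‖(r j) OnePoint.infty‖ ^ 2 := Finset.sum_nonneg fun j _ => sq_nonneg _
    have h14 : 0 ≤ ‖∑ j, (c j) OnePoint.infty * h none j‖ ^ 2 := sq_nonneg _
    calc _ ≤ 1 * (1 / 4 * ‖h‖ ^ 2) := by gcongr
      _ = _ := by ring
  have h3 : ‖matOp X0‖ ≤ 1 / 2 := h1.2 h2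
  have h4 := X0_norm
  linarith


section conv
variable {L K : Type*} [NormedAddCommGroup L] [InnerProductSpace ℂ L]
  [NormedAddCommGroup K] [InnerProductSpace ℂ K]

open Classical in
/-- extension by zero of a map defined on a linear space of operators -/
def ex0 (F : Submodule ℂ (L →L[ℂ] L)) (v : F →ₗ[ℂ] (K →L[ℂ] K)) : Op L → Op K :=
  fun x => if h : x ∈ F then v ⟨x, h⟩ else 0

lemma ex0_mem (F : Submodule ℂ (L →L[ℂ] L)) (v : F →ₗ[ℂ] (K →L[ℂ] K)) (x : Op L) (h : x ∈ F) :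
    ex0 F v x = v ⟨x, h⟩ := by
  simp [ex0, h]

lemma ex0_lin (F : Submodule ℂ (L →L[ℂ] L)) (v : F →ₗ[ℂ] (K →L[ℂ] K)) : LinOn (F : Set (Op L)) (ex0 F v) := by
  constructor
  · intro S hS T hT
    rw [ex0_mem F v S hS, ex0_mem F v T hT, ex0_mem F v _ (F.add_mem hS hT), ← map_add]
    rfl
  · intro c T hT
    rw [ex0_mem F v T hT, ex0_mem F v _ (F.smul_mem c hT), ← map_smul]
    rfl

lemma ex0_cc (F : Submodule ℂ (L →L[ℂ] L)) (v : F →ₗ[ℂ] (K →L[ℂ] K)) (h : CompContr1 F v) :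
    CompContr (F : Set (Op L)) (ex0 F v) := by
  intro k X hX
  have h1 := h k (fun i j => ⟨X i j, hX i j⟩)
  have h2 : (fun i j => ex0 F v (X i j)) = fun i j => v ⟨X i j, hX i j⟩ := by
    ext i j : 2
    exact ex0_mem F v _ (hX i j)
  unfold matNorm
  rw [h2]
  exact h1

/-- the linear map given by a function which is linear on a linear space -/
def toL (E : Submodule ℂ (L →L[ℂ] L)) (u : Op L → Op K) (hu : LinOn (E : Set (Op L)) u) :
    E →ₗ[ℂ] (K →L[ℂ] K) where
  toFun x := u x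
  map_add' x y := hu.1 x x.2 y y.2
  map_smul' c x := hu.2 c x x.2

lemma toL_cc (E : Submodule ℂ (L →L[ℂ] L)) (u : Op L → Op K) (hu : LinOn (E : Set (Op L)) u)
    (hc : CompContr (E : Set (Op L)) u) : CompContr1 E (toL E u hu) := by
  intro k X
  exact hc k (fun i j => (X i j : L →L[ℂ] L)) (fun i j => (X i j).2)

/-- a linear space of operators as a submodule -/
def toS (E : Set (Op L)) (h : IsOpSpace E) : Submodule ℂ (L →L[ℂ] L) where
  carrier := E
  zero_mem' := h.1
  add_mem' := fun {a b} ha hb => h.2.1 a ha b hb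
  smul_mem' := fun c x hx => h.2.2 c x hx

end conv

lemma I_injective.{u} : IsInjective.{u, 0} (algI : Set (Op K2)) := by
  intro L _ _ _ E F hE hF hEF u hu
  have hl : LinOn (toS E hE : Set (Op L)) u := hu.2.1
  obtain ⟨v, hv1, hv2, hv3⟩ := I_injective1.{u} L (toS E hE) (toS F hF) hEF (toL (toS E hE) u hl)
    (fun x => hu.1 x x.2) (toL_cc (toS E hE) u hl hu.2.2)
  refine ⟨ex0 (toS F hF) v, ⟨?_, ex0_lin (toS F hF) v, ex0_cc (toS F hF) v hv2⟩, ?_⟩
  · intro x hx
    rw [ex0_mem (toS F hF) v x hx]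
    exact hv1 _
  · intro x hx
    rw [ex0_mem (toS F hF) v x (hEF hx)]
    exact hv3 ⟨x, hx⟩

/-- the embedding of `A` into `I` as a function on operators -/
def iota (p q : Ultrafilter ℕ) : Op H2 → Op K2 :=
  ex0 (lin (algA p q))
    { toFun := fun x => ((iot p q x : algI) : K2 →L[ℂ] K2)
      map_add' := fun x y => congrArg Subtype.val (map_add (iot p q) x y)
      map_smul' := fun c x => congrArg Subtype.val (map_smul (iot p q) c x) }

lemma iota_apply (p q : Ultrafilter ℕ) (a : algA p q) : iota p q a = (iot p q a : K2 →L[ℂ] K2) := by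
  unfold iota
  rw [ex0_mem (lin (algA p q)) _ (a : H2 →L[ℂ] H2) a.2]
  rfl

/-- the copy of `I` as a function on operators -/
def jj (p q : Ultrafilter ℕ) : Op K2 → Op H2 := ex0 (lin algI) (jL p q)

lemma jj_apply (p q : Ultrafilter ℕ) (a : algI) : jj p q a = jL p q a :=
  ex0_mem (lin algI) _ (a : K2 →L[ℂ] K2) a.2

lemma isCStar_of {H : Type} [NormedAddCommGroup H] [InnerProductSpace ℂ H] [CompleteSpace H]
    (A : StarSubalgebra ℂ (H →L[ℂ] H)) (h : IsClosed (A : Set (H →L[ℂ] H))) :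
    IsCStar (A : Set (Op H)) :=
  ⟨⟨zero_mem A, fun S hS T hT => add_mem hS hT, fun c T hT => SMulMemClass.smul_mem c hT⟩,
    one_mem A, fun S hS T hT => mul_mem hS hT, fun T hT => star_mem hT, h⟩

lemma envelope.{u} (p q : Ultrafilter ℕ) :
    IsInjEnvelope.{u, 0} (algA p q : Set (Op H2)) (algI : Set (Op K2)) (iota p q) := by
  refine ⟨⟨ex0_lin (lin (algA p q)) _, ?_, ?_, ?_⟩, ?_, ?_, isCStar_of _ (closed_range _ beta_inj), I_injective.{u}, ?_⟩
  · have := iota_apply p q 1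
    rw [map_one] at this
    exact this
  · intro S hS T hT
    have h1 := iota_apply p q (⟨S, hS⟩ * ⟨T, hT⟩)
    rw [map_mul] at h1
    have h2 := iota_apply p q ⟨S, hS⟩
    have h3 := iota_apply p q ⟨T, hT⟩
    rw [show iota p q S = _ from h2, show iota p q T = _ from h3]
    exact h1
  · intro T hT
    have h1 := iota_apply p q (star ⟨T, hT⟩)
    rw [map_star] at h1
    have h2 := iota_apply p q ⟨T, hT⟩
    rw [show iota p q T = _ from h2]
    exact h1
  · intro S hS T hT h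
    rw [show iota p q S = _ from iota_apply p q ⟨S, hS⟩,
      show iota p q T = _ from iota_apply p q ⟨T, hT⟩] at h
    have := iot_inj p q (Subtype.ext h)
    exact congrArg Subtype.val this
  · intro S hS
    rw [show iota p q S = _ from iota_apply p q ⟨S, hS⟩]
    exact (iot p q ⟨S, hS⟩).2
  · intro u hu hA x hx
    have hl : LinOn (lin algI : Set (Op K2)) u := hu.2.1
    refine I_rigid p q (toL (lin algI) u hl) (fun x => hu.1 x x.2) (toL_cc (lin algI) u hl hu.2.2)
      ?_ ⟨x, hx⟩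
    intro a
    have := hA a a.2
    rw [iota_apply] at this
    exact this

/-- There are unital C*-algebras `A ⊆ B ⊆ B(H)`, an injective envelope `ι : A → I` of `A` and a
complete isometry `j : I → B(H)` with `j (ι a) = a` for all `a` in `A` whose range norms `B`,
while `A` does not norm `B`. -/
theorem result.{u} :
    ∃ (H : Type) (_ : NormedAddCommGroup H) (_ : InnerProductSpace ℂ H) (_ : CompleteSpace H)
      (K : Type) (_ : NormedAddCommGroup K) (_ : InnerProductSpace ℂ K) (_ : CompleteSpace K)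
      (A B : Set (Op H)) (I : Set (Op K)) (ι : Op H → Op K) (j : Op K → Op H),
      IsCStar A ∧ IsCStar B ∧ A ⊆ B ∧ IsInjEnvelope.{u, 0} A I ι ∧
      LinOn I j ∧ CompIsom I j ∧ (∀ a ∈ A, j (ι a) = a) ∧ Norms (j '' I) B ∧ ¬ Norms A B := by
  obtain ⟨p, q, hg⟩ := exists_good
  refine ⟨H2, inferInstance, inferInstance, inferInstance, K2, inferInstance, inferInstance,
    inferInstance, algA p q, algB, algI, iota p q, jj p q, isCStar_of _ (closed_range _ (j_inj p q)),
    isCStar_of _ (closed_range _ gam_inj), A_le_B p q hg.hp hg.hq, envelope p q,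
    ex0_lin (lin algI) _, ?_, ?_, ?_, not_norms hg⟩
  · intro k X hX
    have h1 := jL_isom p q k (fun i j => ⟨X i j, hX i j⟩)
    have h2 : (fun i j => jj p q (X i j)) = fun i j => jL p q ⟨X i j, hX i j⟩ := by
      ext i j : 2
      exact jj_apply p q ⟨X i j, hX i j⟩
    unfold matNorm
    rw [h2]
    exact h1
  · intro a ha
    rw [show iota p q a = _ from iota_apply p q ⟨a, ha⟩, jj_apply]
    exact jL_iot p q ⟨a, ha⟩
  · have h1 : jj p q '' (algI : Set (Op K2)) = Set.range (jL p q) := by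
      ext T
      constructor
      · rintro ⟨x, hx, rfl⟩
        exact ⟨⟨x, hx⟩, (jj_apply p q ⟨x, hx⟩).symm⟩
      · rintro ⟨x, rfl⟩
        exact ⟨x, x.2, jj_apply p q x⟩
    rw [h1]
    exact norms_j hg

end

end Pool.Agent.Results.MP_dad682_an.NormingEnvelope
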